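import Pool.Agent.Helper53.AE.GoalsB
import Pool.Agent.Helper34.CAR.Mt

/-!
# Project AE (MP_8130e1_an), packet AE-PIN: injective *-homomorphisms reflect positivity of matrices
-/

set_option autoImplicit false

open scoped ComplexOrder Topology
open Filter TopologicalSpace

namespace Pool.Agent.Helper31.AE.PIN

open Pool.Agent.Helper53.AE Pool.Agent.Helper34.CAR

theorem t : S_PIN := by
  intro B C _ _ ι hι n K hK
  rcases Nat.eq_zero_or_pos n with hn | hn
  · subst hn
    exact ⟨0, fun j => j.elim0, fun j => j.elim0, fun s => s.elim0⟩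
  obtain ⟨r, W, -, hW⟩ := hK
  have : NeZero n := ⟨hn.ne'⟩
  set X : Mt (Fin n) B := Mt.of K with hX
  set φ : Mt (Fin n) B →⋆ₐ[ℂ] Mt (Fin n) C := Mt.map ι with hφ
  have hinj : Function.Injective φ := by
    intro a b h
    ext i j
    apply hι
    have h1 := congrFun (congrFun h i) j
    exact h1
  set Z : Fin r → Mt (Fin n) C := fun j => Mt.of fun p q => if p = 0 then W j q else 0 with hZ
  have hsum : φ X = ∑ j, star (Z j) * Z j := by
    ext s t
    rw [Mt.sum_apply]
    have hst : φ X s t = ∑ j, star (W j s) * W j t := hW s t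
    refine hst.trans ?_
    refine Finset.sum_congr rfl fun j _ => ?_
    rw [Mt.mul_apply, Finset.sum_eq_single (0 : Fin n)]
    · rw [Mt.star_apply, hZ]
      simp only [Mt.of_apply, if_true]
    · intro p _ hp
      rw [hZ]
      simp only [Mt.of_apply, if_neg hp, mul_zero]
    · intro h
      exact absurd (Finset.mem_univ _) h
  have hself : IsSelfAdjoint (φ X) := by
    rw [hsum]
    refine isSelfAdjoint_sum _ fun j _ => ?_
    exact IsSelfAdjoint.star_mul_self (Z j)
  have hXs : IsSelfAdjoint X := by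
    apply hinj
    rw [map_star]
    exact hself
  have hspec : ∀ x ∈ spectrum ℝ X, 0 ≤ x := by
    intro x hx
    have h1 : spectrum ℝ (φ X) = spectrum ℝ X := hXs.map_spectrum_real φ hinj
    rw [← h1] at hx
    let _ := CStarAlgebra.spectralOrder (Mt (Fin n) C)
    have := CStarAlgebra.spectralOrderedRing (Mt (Fin n) C)
    have h2 : 0 ≤ φ X := by
      rw [hsum]
      exact Finset.sum_nonneg fun j _ => star_mul_self_nonneg (Z j)
    exact spectrum_nonneg_of_nonneg h2 hx
  set Y : Mt (Fin n) B := cfc Real.sqrt X with hY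
  have hYs : star Y = Y := (cfc_predicate Real.sqrt X : IsSelfAdjoint (cfc Real.sqrt X))
  have hYY : Y * Y = X := by
    rw [hY, ← cfc_mul Real.sqrt Real.sqrt X]
    have h1 : cfc (fun x => Real.sqrt x * Real.sqrt x) X = cfc (fun x : ℝ => x) X :=
      cfc_congr fun x hx => Real.mul_self_sqrt (hspec x hx)
    rw [h1]
    exact cfc_id' ℝ X hXs
  refine ⟨n, fun l i => Y l i, fun _ _ => Set.mem_univ _, fun s t => ?_⟩
  have h1 : K s t = (star Y * Y) s t := by
    rw [hYs, hYY, hX, Mt.of_apply]
  rw [h1, Mt.mul_apply]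
  refine Finset.sum_congr rfl fun l _ => ?_
  rw [Mt.star_apply]

end Pool.Agent.Helper31.AE.PIN
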